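import Pool.Agent.Helper33.DZ.Stmts

open Complex Polynomial

namespace Pool.Agent.Helper33.DZ

/-- harmonic sums -/
noncomputable def sum_H (N : ℕ) : ℝ := ∑ i ∈ Finset.range N, (1 : ℝ) / ((i + 1 : ℕ) : ℝ)

theorem sum_H_succ (N : ℕ) : sum_H (N + 1) = sum_H N + 1 / ((N + 1 : ℕ) : ℝ) := by
  unfold sum_H
  rw [Finset.sum_range_succ]

theorem sum_tele (N : ℕ) : HasSum (fun j : ℕ => (1 : ℝ) / ((j + 1 + N : ℕ) : ℝ) -
    1 / ((j + 2 + N : ℕ) : ℝ)) (1 / ((N + 1 : ℕ) : ℝ)) := by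
  rw [hasSum_iff_tendsto_nat_of_nonneg]
  · have h1 : ∀ n : ℕ, ∑ j ∈ Finset.range n, ((1 : ℝ) / ((j + 1 + N : ℕ) : ℝ) -
        1 / ((j + 2 + N : ℕ) : ℝ)) = 1 / ((N + 1 : ℕ) : ℝ) - 1 / ((n + 1 + N : ℕ) : ℝ) := by
      intro n
      have h2 := Finset.sum_range_sub' (fun j : ℕ => (1 : ℝ) / ((j + 1 + N : ℕ) : ℝ)) n
      rw [Nat.zero_add, Nat.add_comm 1 N] at h2
      rw [← h2]
    simp_rw [h1]
    have h3 : Filter.Tendsto (fun n : ℕ => (1 : ℝ) / ((n + 1 + N : ℕ) : ℝ)) Filter.atTop (nhds 0) := by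
      have h4 := (tendsto_one_div_add_atTop_nhds_zero_nat (𝕜 := ℝ)).comp
        (Filter.tendsto_add_atTop_nat N)
      refine h4.congr ?_
      intro n
      simp only [Function.comp_apply]
      push_cast
      congr 1
      ring
    have h5 := h3.const_sub (1 / ((N + 1 : ℕ) : ℝ))
    rwa [sub_zero] at h5
  · intro j
    have : (1 : ℝ) / ((j + 2 + N : ℕ) : ℝ) ≤ 1 / ((j + 1 + N : ℕ) : ℝ) := by
      apply one_div_le_one_div_of_le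
      · exact_mod_cast (show 0 < j + 1 + N by omega)
      · exact_mod_cast (show j + 1 + N ≤ j + 2 + N by omega)
    linarith

theorem sum_harm (N : ℕ) : HasSum (fun j : ℕ => (1 : ℝ) / ((j + 1 : ℕ) : ℝ) -
    1 / ((j + 1 + N : ℕ) : ℝ)) (sum_H N) := by
  induction N with
  | zero =>
    have h1 : (fun j : ℕ => (1 : ℝ) / ((j + 1 : ℕ) : ℝ) - 1 / ((j + 1 + 0 : ℕ) : ℝ)) =
        fun _ => 0 := by
      funext j
      rw [Nat.add_zero, sub_self]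
    rw [h1]
    have h2 : sum_H 0 = 0 := by
      unfold sum_H
      rw [Finset.sum_range_zero]
    rw [h2]
    exact hasSum_zero
  | succ N ih =>
    have h1 := ih.add (sum_tele N)
    rw [sum_H_succ]
    have h2 : (fun j : ℕ => (1 : ℝ) / ((j + 1 : ℕ) : ℝ) - 1 / ((j + 1 + (N + 1) : ℕ) : ℝ)) =
        fun j : ℕ => (1 : ℝ) / ((j + 1 : ℕ) : ℝ) - 1 / ((j + 1 + N : ℕ) : ℝ) +
          (1 / ((j + 1 + N : ℕ) : ℝ) - 1 / ((j + 2 + N : ℕ) : ℝ)) := by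
      funext j
      have h3 : j + 1 + (N + 1) = j + 2 + N := by omega
      rw [h3]
      ring
    rw [h2]
    exact h1

/-- geometric sum -/
theorem sum_geom (K : ℕ) {j m n : ℝ} (hj : 0 < j) (hn : 0 < n) (hm : m = j + n) :
    ∑ h ∈ Finset.Icc 2 (K + 2), 1 / (m ^ h * n ^ (K + 3 - h)) =
      1 / (j * m * n ^ (K + 1)) - 1 / (j * m ^ (K + 2)) := by
  have hm0 : 0 < m := by rw [hm]; positivity
  induction K with
  | zero =>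
    have h1 : Finset.Icc 2 (0 + 2) = {2} := by decide
    rw [h1, Finset.sum_singleton]
    have h2 : 0 + 3 - 2 = 1 := by norm_num
    rw [h2]
    field_simp
    rw [hm]
    ring
  | succ K ih =>
    rw [show K + 1 + 2 = K + 2 + 1 from rfl, Finset.sum_Icc_succ_top (by omega)]
    have h1 : ∑ h ∈ Finset.Icc 2 (K + 2), 1 / (m ^ h * n ^ (K + 1 + 3 - h)) =
        (1 / n) * ∑ h ∈ Finset.Icc 2 (K + 2), 1 / (m ^ h * n ^ (K + 3 - h)) := by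
      rw [Finset.mul_sum]
      apply Finset.sum_congr rfl
      intro h hh
      rw [Finset.mem_Icc] at hh
      have h2 : K + 1 + 3 - h = (K + 3 - h) + 1 := by omega
      rw [h2, pow_succ]
      field_simp
    rw [h1, ih]
    have h3 : K + 1 + 3 - (K + 2 + 1) = 1 := by omega
    rw [h3, pow_one]
    have h4 : n = m - j := by rw [hm]; ring
    have h5 : m ≠ 0 := hm0.ne'
    have h6 : n ≠ 0 := hn.ne'
    have h7 : j ≠ 0 := hj.ne'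
    have h8 : 1 / (m ^ (K + 2 + 1) * n) - 1 / n * (1 / (j * m ^ (K + 2))) =
        - (1 / (j * m ^ (K + 2 + 1))) := by
      rw [pow_succ m (K + 2)]
      field_simp
      rw [h4]
      ring
    have h9 : 1 / n * (1 / (j * m * n ^ (K + 1))) = 1 / (j * m * n ^ (K + 1 + 1)) := by
      rw [pow_succ n (K + 1)]
      field_simp
    calc 1 / n * (1 / (j * m * n ^ (K + 1)) - 1 / (j * m ^ (K + 2))) + 1 / (m ^ (K + 2 + 1) * n)
        = 1 / n * (1 / (j * m * n ^ (K + 1))) +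
          (1 / (m ^ (K + 2 + 1) * n) - 1 / n * (1 / (j * m ^ (K + 2)))) := by ring
      _ = _ := by
        rw [h8, h9]
        ring

theorem sum_b (hS : ST_SUMM) (K : ℕ) :
    HasSum (fun p : ℕ × ℕ => (1 : ℝ) / (((p.1 + 1 : ℕ) : ℝ) * (((p.1 + p.2 + 2 : ℕ) : ℝ)) ^ (K + 2)))
      (dz (K + 2) 1) := by
  have h1 := (hS (K + 2) 1 (by omega) le_rfl).hasSum
  have h2 := (Equiv.prodComm ℕ ℕ).hasSum_iff.2 h1
  have h3 : (fun p : ℕ × ℕ => (1 : ℝ) / (((p.1 + 1 : ℕ) : ℝ) * (((p.1 + p.2 + 2 : ℕ) : ℝ)) ^ (K + 2))) =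
      (fun p : ℕ × ℕ => (1 : ℝ) / ((((p.1 + p.2 + 2 : ℕ) : ℝ) ^ (K + 2)) * (((p.2 + 1 : ℕ) : ℝ) ^ 1))) ∘
        (Equiv.prodComm ℕ ℕ) := by
    funext p
    simp only [Function.comp_apply, Equiv.prodComm_apply, Prod.fst_swap, Prod.snd_swap, pow_one]
    rw [Nat.add_comm p.2 p.1, mul_comm]
  rw [h3]
  exact h2

/-- the double zeta value as a single series -/
theorem sum_dz1 (hS : ST_SUMM) (K : ℕ) :
    HasSum (fun n : ℕ => sum_H (n + 1) / ((n + 2 : ℕ) : ℝ) ^ (K + 2)) (dz (K + 2) 1) := by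
  have h1 := (hS (K + 2) 1 (by omega) le_rfl).hasSum
  have h2 := Finset.HasAntidiagonal.sigmaAntidiagonalEquivProd.hasSum_iff.2 h1
  have h3 := h2.sigma (fun n => hasSum_fintype _)
  have h4 : (fun n : ℕ => sum_H (n + 1) / ((n + 2 : ℕ) : ℝ) ^ (K + 2)) = fun n : ℕ =>
      ∑ c : Finset.HasAntidiagonal.antidiagonal n, ((fun p : ℕ × ℕ => (1 : ℝ) /
        ((((p.1 + p.2 + 2 : ℕ) : ℝ) ^ (K + 2)) * (((p.2 + 1 : ℕ) : ℝ) ^ 1))) ∘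
        Finset.HasAntidiagonal.sigmaAntidiagonalEquivProd) ⟨n, c⟩ := by
    funext n
    have h5 : ∑ c : Finset.HasAntidiagonal.antidiagonal n, ((fun p : ℕ × ℕ => (1 : ℝ) /
        ((((p.1 + p.2 + 2 : ℕ) : ℝ) ^ (K + 2)) * (((p.2 + 1 : ℕ) : ℝ) ^ 1))) ∘
        Finset.HasAntidiagonal.sigmaAntidiagonalEquivProd) ⟨n, c⟩ = ∑ p ∈ Finset.HasAntidiagonal.antidiagonal n, (1 : ℝ) /
        ((((p.1 + p.2 + 2 : ℕ) : ℝ) ^ (K + 2)) * (((p.2 + 1 : ℕ) : ℝ) ^ 1)) := by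
      exact Finset.sum_coe_sort (Finset.HasAntidiagonal.antidiagonal n) (fun p : ℕ × ℕ => (1 : ℝ) /
        ((((p.1 + p.2 + 2 : ℕ) : ℝ) ^ (K + 2)) * (((p.2 + 1 : ℕ) : ℝ) ^ 1)))
    rw [h5, Finset.Nat.sum_antidiagonal_eq_sum_range_succ_mk]
    unfold sum_H
    rw [← Finset.sum_range_reflect, Finset.sum_div]
    apply Finset.sum_congr rfl
    intro i hi
    rw [Finset.mem_range] at hi
    have e1 : i + (n - i) + 2 = n + 2 := by omega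
    have e2 : n + 1 - 1 - i + 1 = n - i + 1 := by omega
    rw [e1, e2, pow_one, div_div, mul_comm]
  rw [h4]
  exact h3

theorem sum_a (hS : ST_SUMM) (K : ℕ) (ha : Summable (fun p : ℕ × ℕ => (1 : ℝ) /
      (((p.1 + 1 : ℕ) : ℝ) * ((p.1 + p.2 + 2 : ℕ) : ℝ) * (((p.2 + 1 : ℕ) : ℝ)) ^ (K + 1)))) :
    ∑' p : ℕ × ℕ, (1 : ℝ) /
      (((p.1 + 1 : ℕ) : ℝ) * ((p.1 + p.2 + 2 : ℕ) : ℝ) * (((p.2 + 1 : ℕ) : ℝ)) ^ (K + 1)) =
      zt (K + 3) + dz (K + 2) 1 := by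
  have h1 := ha.hasSum
  have h2 := (Equiv.prodComm ℕ ℕ).hasSum_iff.2 h1
  have h3 := h2.prod_fiberwise (g := fun n : ℕ => sum_H (n + 1) / ((n + 1 : ℕ) : ℝ) ^ (K + 2)) (by
    intro n
    have e1 := (sum_harm (n + 1)).mul_left (1 / ((n + 1 : ℕ) : ℝ) ^ (K + 2))
    have e2 : 1 / ((n + 1 : ℕ) : ℝ) ^ (K + 2) * sum_H (n + 1) =
        sum_H (n + 1) / ((n + 1 : ℕ) : ℝ) ^ (K + 2) := by ring
    rw [e2] at e1
    have e3 : (fun j : ℕ => ((fun p : ℕ × ℕ => (1 : ℝ) /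
        (((p.1 + 1 : ℕ) : ℝ) * ((p.1 + p.2 + 2 : ℕ) : ℝ) * (((p.2 + 1 : ℕ) : ℝ)) ^ (K + 1))) ∘
        (Equiv.prodComm ℕ ℕ)) (n, j)) = fun j : ℕ => 1 / ((n + 1 : ℕ) : ℝ) ^ (K + 2) *
        (1 / ((j + 1 : ℕ) : ℝ) - 1 / ((j + 1 + (n + 1) : ℕ) : ℝ)) := by
      funext j
      simp only [Function.comp_apply, Equiv.prodComm_apply, Prod.fst_swap, Prod.snd_swap]
      have e4 : j + 1 + (n + 1) = j + n + 2 := by omega
      rw [e4]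
      have e5 : (0 : ℝ) < ((j + 1 : ℕ) : ℝ) := by positivity
      have e6 : (0 : ℝ) < ((j + n + 2 : ℕ) : ℝ) := by positivity
      have e7 : (0 : ℝ) < ((n + 1 : ℕ) : ℝ) := by positivity
      rw [pow_succ ((n + 1 : ℕ) : ℝ) (K + 1)]
      field_simp
      push_cast
      ring
    rw [e3]
    exact e1)
  have h4 := sum_dz1 hS K
  -- the zeta value
  have h5 : Summable (fun n : ℕ => (1 : ℝ) / ((n + 1 : ℕ) : ℝ) ^ (K + 3)) := by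
    have e1 : Summable (fun n : ℕ => (1 : ℝ) / (n : ℝ) ^ (K + 3)) :=
      Real.summable_one_div_nat_pow.2 (by omega)
    exact (summable_nat_add_iff 1).2 e1
  have h6 := h5.hasSum
  have h7 := h3.tsum_eq
  have h8 := (h3.summable).tsum_eq_zero_add
  have h9 := h5.tsum_eq_zero_add
  have h10 : HasSum (fun n : ℕ => sum_H (n + 1) / ((n + 2 : ℕ) : ℝ) ^ (K + 2) +
      1 / ((n + 2 : ℕ) : ℝ) ^ (K + 3)) (dz (K + 2) 1 + ∑' n : ℕ, (1 : ℝ) / ((n + 2 : ℕ) : ℝ) ^ (K + 3)) :=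
    h4.add ((summable_nat_add_iff 1).2 h5).hasSum
  have h11 : (fun n : ℕ => sum_H (n + 1) / ((n + 2 : ℕ) : ℝ) ^ (K + 2) +
      1 / ((n + 2 : ℕ) : ℝ) ^ (K + 3)) = fun n : ℕ => sum_H (n + 1 + 1) / ((n + 1 + 1 : ℕ) : ℝ) ^ (K + 2) := by
    funext n
    rw [sum_H_succ (n + 1)]
    have e1 : (0 : ℝ) < ((n + 1 + 1 : ℕ) : ℝ) := by positivity
    have e2 : n + 2 = n + 1 + 1 := rfl
    rw [e2, pow_succ ((n + 1 + 1 : ℕ) : ℝ) (K + 2)]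
    field_simp
  rw [h11] at h10
  have h12 := h10.tsum_eq
  rw [h12] at h8
  have e0 : sum_H (0 + 1) / ((0 + 1 : ℕ) : ℝ) ^ (K + 2) = 1 := by
    unfold sum_H
    simp
  have e0' : (1 : ℝ) / ((0 + 1 : ℕ) : ℝ) ^ (K + 3) = 1 := by
    simp
  rw [e0] at h8
  rw [e0'] at h9
  have h13 : zt (K + 3) = 1 + ∑' n : ℕ, (1 : ℝ) / ((n + 1 + 1 : ℕ) : ℝ) ^ (K + 3) := h9
  rw [h13, ← h7, h8]
  ring

theorem st_SUM (hS : ST_SUMM) : ST_SUM := by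
  intro k hk
  obtain ⟨K, rfl⟩ : ∃ K, k = K + 3 := ⟨k - 3, by omega⟩
  have hk1 : K + 3 - 1 = K + 2 := by omega
  rw [hk1]
  have hF : ∀ h ∈ Finset.Icc 2 (K + 2), Summable (fun p : ℕ × ℕ => (1 : ℝ) /
      ((((p.1 + p.2 + 2 : ℕ) : ℝ) ^ h) * (((p.2 + 1 : ℕ) : ℝ) ^ (K + 3 - h)))) := by
    intro h hh
    rw [Finset.mem_Icc] at hh
    exact hS h (K + 3 - h) hh.1 (by omega)
  have h1 : ∑ h ∈ Finset.Icc 2 (K + 2), dz h (K + 3 - h) = ∑' p : ℕ × ℕ,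
      ∑ h ∈ Finset.Icc 2 (K + 2), (1 : ℝ) /
      ((((p.1 + p.2 + 2 : ℕ) : ℝ) ^ h) * (((p.2 + 1 : ℕ) : ℝ) ^ (K + 3 - h))) :=
    (Summable.tsum_finsetSum hF).symm
  have h2 : ∀ p : ℕ × ℕ, ∑ h ∈ Finset.Icc 2 (K + 2), (1 : ℝ) /
      ((((p.1 + p.2 + 2 : ℕ) : ℝ) ^ h) * (((p.2 + 1 : ℕ) : ℝ) ^ (K + 3 - h))) =
      (1 : ℝ) / (((p.1 + 1 : ℕ) : ℝ) * ((p.1 + p.2 + 2 : ℕ) : ℝ) * (((p.2 + 1 : ℕ) : ℝ)) ^ (K + 1)) -
      (1 : ℝ) / (((p.1 + 1 : ℕ) : ℝ) * (((p.1 + p.2 + 2 : ℕ) : ℝ)) ^ (K + 2)) := by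
    intro p
    apply sum_geom
    · positivity
    · positivity
    · push_cast
      ring
  have hb := sum_b hS K
  have hs : Summable (fun p : ℕ × ℕ => ∑ h ∈ Finset.Icc 2 (K + 2), (1 : ℝ) /
      ((((p.1 + p.2 + 2 : ℕ) : ℝ) ^ h) * (((p.2 + 1 : ℕ) : ℝ) ^ (K + 3 - h)))) :=
    summable_sum hF
  have ha : Summable (fun p : ℕ × ℕ => (1 : ℝ) /
      (((p.1 + 1 : ℕ) : ℝ) * ((p.1 + p.2 + 2 : ℕ) : ℝ) * (((p.2 + 1 : ℕ) : ℝ)) ^ (K + 1))) := by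
    refine (hs.add hb.summable).congr ?_
    intro p
    rw [h2 p]
    ring
  rw [h1]
  simp_rw [h2]
  rw [ha.tsum_sub hb.summable, hb.tsum_eq, sum_a hS K ha]
  ring

end Pool.Agent.Helper33.DZ
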